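import Pool.Agent.Zk51.NV.Main

/-!
# The noncommutative variational Hodge conjecture for `D(A) ⊠ 𝒟`, for moving families `A` of abelian
# varieties and arbitrary families `𝒟` of categories

Let `B` be the universal covering of the base `S`. Let `A → B` be a fibre product (repetitions allowed)
of families `A i` of principally polarized abelian varieties, and let `𝒟 ⊂ D_perf(Y)` be ANY linear
admissible subcategory for ANY smooth proper family `Y → B`. The homology of the fibres of `A` is
trivialized: it is a rational space `W` with an inclusion in the tangent space of `A_b` for every `b`. The
rational topological K-theory of the fibres of `Y` is trivialized, it is the space `ℚ ^ v`, and its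
Hodge structure at `b` is given by the Hodge operator of `Y b : Coh v` (multiplication by `p - q` on the
classes of type `(p, q)`, so that its kernel is the part `HH_0`). The category `𝒟` is given by the
projector `P` of the topological K-theory defined by the projection functor onto `𝒟`; it is flat and
commutes with the Hodge operators (`IsProjector`). So the flat sections of the topological K-theory of
`𝒟` are the `x` with `P x = x`, and (`IsHodgeD`) they are Hodge classes at `b` if the Hodge operator kills
them. The flat sections for `D(A) ⊠ 𝒟` are the elements `F` of `⨁ k, H^k(A) ⊗ K^top(Y) = HAZ W v`
with values in `K^top(𝒟)` (`IsHodgeAD`).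

Suppose that `A` moves relative to `𝒟` (`MovesRelativeTo`): through each point of `B` there is a connected
complex manifold along which the Hodge structure of `𝒟` is constant and each `A i` is moving. (The
Hodge structure of `Y` need not be constant there.) Moving means that one of the members is simple and
one of the ranks (of `γ - 1` for a monodromy operator `γ` with `(γ - 1) ^ 2 = 0`, of a derivative of the
period matrix, or of the difference of two period matrices) is odd, or the centre of the
endomorphism algebra is totally real and one of the ranks is two or there are more than
`(g - 1) ^ 2 / 8` moduli. For instance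

* `𝒟` is one fixed category, an arbitrary admissible subcategory of `D_perf(Y_0)` for any smooth proper
  `Y_0`, `B` is open in `ℂ ^ d` and all `A i` are moving over `B`;
* `Y → B` varies with `A` but `𝒟` has constant periods: for instance `Y_b` is the blow-up of a fixed variety
  along `A_b`, or a family of varieties with a common Kuznetsov component;
* `B = U × S'`, the `A i` are moving over `U` and `𝒟` is any family over `S'`.

**Theorem.** (1) Each flat class of `D(A) ⊠ 𝒟` which is a Hodge class of all fibres is a sum of products
`f ⊗ x`, where `f` is flat and on each `A_b` a combination of products of divisor classes, and `x` is flat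
and a Hodge class of all `𝒟_b`.

(2) **The noncommutative variational Hodge conjecture for `𝒟` implies the noncommutative variational
Hodge conjecture for `D(A) ⊠ 𝒟`.** (A global section which is algebraic on one fibre is a Hodge class on
all fibres, as recalled in the question. So the question concerns exactly the flat classes which are
Hodge classes on all fibres.)

(3) If the span of the classes of objects of `𝒟_b` does not depend on `b`, for instance if `𝒟` is a
fixed category, **the noncommutative variational Hodge conjecture is true for `D(A) ⊠ 𝒟`**. Nothing is
assumed about the Hodge conjecture for `𝒟`.

Of the classes of objects only two properties are used (the fields of `CycleSystem`): the product of a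
product of divisor classes on `A_b` (a combination of classes of objects of `D(A_b)`) and the class of an
object of `𝒟_b` is a combination of classes of objects of `D(A_b) ⊠ 𝒟_b`; and so is, for `𝒟_b`, the class
`pr_*(F ∧ β)` for the class `F` of an object of `D(A_b) ⊠ 𝒟_b` and a product `β` of divisor classes on
`A_b`, where `pr_*` is given by the direct image functor `D(A_b) ⊠ 𝒟_b → 𝒟_b` (the Todd class of an
abelian variety is `1`).

The case `𝒟 = D_perf(Y)` is a theorem of helper504 in the starting files on the variational Hodge
conjecture (`MP_e9c0f3_ag.TimesAnyVariety`). Its proof uses only the rational Hodge structures; here it is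
applied to the Hodge structure of `𝒟`, a direct summand of the one of `Y`. So only the periods of `𝒟`
have to be constant along the leaves, and only the variational conjecture for `𝒟` is needed.
-/

set_option autoImplicit false

namespace Pool.Agent.Results.MP_298761_ag.MovingTimesAnyCategory

open Pool.Agent.H204R3.CM Pool.Agent.TH131.GHC Pool.Agent.TH504.VY Pool.Agent.R299.NCH
  Pool.Agent.Zk51.NV

/-- The noncommutative variational Hodge conjecture for `D(A) ⊠ 𝒟`, where `A` is a fibre product
`A (c 0) × ... × A (c (n - 1))` of families of abelian varieties which move relative to `𝒟`. -/
theorem result {ι B : Type} [Nonempty B] {g : ι → ℕ}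
    (Z : ∀ i, B → Matrix (Fin (g i)) (Fin (g i)) ℂ) {n : ℕ} (c : Fin n → ι) {v : ℕ}
    (Y : B → Coh v) (P : Matrix (Fin v) (Fin v) ℚ) (hP : ∀ b, IsProjector (Y b) P)
    (hmov : MovesRelativeTo Z Y P) :
    HodgeClassesAreBoxes (fibreProduct Z c) Y P ∧
      ∀ C : CycleSystem (fibreProduct Z c) v,
        (NCVHC Y P C.algY → NCVHCBox (fibreProduct Z c) Y P C.alg) ∧
        ((∀ b b', C.algY b = C.algY b') → NCVHCBox (fibreProduct Z c) Y P C.alg) := by
  obtain ⟨h1, h2⟩ := main Z c Y P hP hmov
  refine ⟨h1, fun C => ⟨h2 C, fun hC => h2 C fun x _ b₀ hx b => ?_⟩⟩
  rw [hC b b₀]
  exact hx

end Pool.Agent.Results.MP_298761_ag.MovingTimesAnyCategory
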