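import Pool.Agent.Zk51.VH.Main

/-!
# The noncommutative variational Hodge conjecture for all tensor powers of a family of categories: a
# law for the sections which are algebraic on one fibre

Let `S` be the base (a connected smooth complex variety), `𝒞` an `S`-linear admissible subcategory of
`D_perf(X)` and `𝒟` one of `D_perf(Y)`, for any smooth proper `X → S`, `Y → S`. Let `A` be a set of points
of `S`, for instance `A = S` or `A = {o, s}`, and `o` a point of `A`. Suppose that `𝒞_s` has the sign
property `C⁺` for `s` in `A`: the projector of `K^top_*(𝒞_s)_ℚ` to `K^top_0` is algebraic. It holds if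
`K^top_1(𝒞) = 0` (`𝒞` is a family of Kuznetsov components of cubic fourfolds, of noncommutative K3
surfaces, ...), and for the admissible subcategories of `D_perf(X)` for families of curves,
surfaces, abelian varieties, complete intersections and their products. Nothing is assumed about
`𝒟`. Let `b` be the rank of `K^top_*(𝒞_s)`, and, for `n ≥ 0`,

* `𝒞_n = (𝒞 ⊠ 𝒞^op)^⊠n`;
* `δ(n)` the number of linearly independent global sections of the local system
  `K^top_0(𝒟 ⊠ 𝒞_n) ⊗ ℚ` which are algebraic at `o`, modulo the sections which are algebraic at all
  points of `A`. So Q1 for the families `𝒟 ⊠ 𝒞_n` (and the points `o` and `s ∈ A`) says that `δ(n) = 0`;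
* `ρ(n)` the dimension of the space of the global sections of `K^top_0(𝒞_n) ⊗ ℚ` which are algebraic at
  all points of `A`, modulo those which are orthogonal to all sections of this kind.

**Theorem.** (1) `δ(n) / ρ(n)` converges, for `n → ∞`, to a natural number `N` or to infinity. `N = 0` if
and only if, for all `n`, all sections for `𝒟 ⊠ 𝒞_n` which are algebraic at `o` are algebraic at all
points of `A`.

(2) If `N` is finite then `δ(n)` is the dimension of a space `⨁ Hom(M_i, 𝒞_n)` for all `n`, with finitely
many numerical motives `M_i` over `S` (direct summands of motives of categories `𝒞_k`) with sum of the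
ranks `N`; at most `N` sections for one `𝒟 ⊠ 𝒞_m`, algebraic at `o`, generate, under correspondences
which are algebraic at all points of `A`, all sections for all `𝒟 ⊠ 𝒞_n` which are algebraic at
`o`, modulo those which are algebraic on `A`; and compositions of `N` numerically trivial
correspondences map sections which are algebraic at `o` to sections which are algebraic on `A`.

(3) If the numerical motive of each `𝒞_n` is a direct summand of a sum of motives of families `𝒵` for
which all sections for `𝒟 ⊠ 𝒵` that are algebraic at `o` are algebraic on `A` then `N` is `0` or infinity.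

(4) (Growth gap.) If one section for `𝒟 ⊠ 𝒞_m` is algebraic at `o` but not on all of `A`, then
`δ(n) ≥ b^(2 n) / (2 (n + 1)^(b^2))` for ALL `n ≥ 128 (m + 1)^2 b^(4 m + 12)`. Here `b^(2 n)` is the rank of
`K^top_*(𝒞_n)`. So the variational Hodge conjecture for `𝒟 ⊠ 𝒞_m` follows from one inequality for one
explicit `n`.

So a counterexample to Q1 is never isolated: it forces almost as many counterexamples on the large
tensor powers as their ranks permit.

The setting. `C` is the category of the `S`-linear smooth proper categories (admissible subcategories as
in the question), where the morphisms from `𝒴` to `𝒵` are the global sections of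
`K^top_0(𝒴^op ⊠ 𝒵) ⊗ ℚ` which are algebraic at all points of `A`; it is a rigid symmetric monoidal
`ℚ`-linear category with `𝟙_ C = D_perf(S)`, `𝒵^∨ = 𝒵^op`, `T = 𝒞`; and `tp (T ⊗ T^∨) n` is `𝒞_n`. `R` is the
functor `𝒵 ↦ K^top_*(𝒵_o) ⊗ K` to super vector spaces over an algebraically closed field `K`.
`FlatClasses` are the global sections of `K^top_0(𝒟 ⊠ 𝒵) ⊗ ℚ` with the subspaces of the sections which
are algebraic at the various points; `Stable` says that correspondences which are algebraic at
`s` preserve the sections which are algebraic at `s`.

Idea of the proof. `δ(n)` is the dimension of the value at `𝒞_n` of an additive functor on `C`, the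
sections which are algebraic at `o` modulo those which are algebraic on `A`. The law of the dimensions
of the values of additive functors on the powers of an object (`Pool.Agent.N64.AF`, helper64 and
others) applies to it.
-/

set_option autoImplicit false

namespace Pool.Agent.Results.MP_298761_ag.OneFibreLaw

open CategoryTheory MonoidalCategory
open Pool.Agent.Y112.SR Pool.Agent.Y112.KD Pool.Agent.N64.AF Pool.Agent.Zk51.VH

universe v u w x y

/-- The law for the sections which are algebraic on one fibre, and the growth gap. -/
theorem result {B : Type y} {C : Type u} [Category.{v} C] [Preadditive C] [MonoidalCategory C]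
    [MonoidalPreadditive C] [SymmetricCategory C] [RightRigidCategory C]
    [Linear ℚ C] [MonoidalLinear ℚ C]
    {K : Type w} [Field K] [IsAlgClosed K] [Algebra ℚ K] (R : SuperRealisation C K)
    (hR : IsReal ℚ R) (T : C) (hT : R.CPlus T) (hb : 0 < bt R T)
    (D : FlatClasses.{v, u, x, y} B C) (A : Set B) (hA : D.Stable A) (o : B) (ho : o ∈ A) :
    D.Law R (T ⊗ Tᘁ) o A ∧ D.GrowthGap R T o A := by
  obtain ⟨_, h⟩ := isPow_tensor_dual hR hT hb
  exact ⟨FlatClasses.law_main h hA ho, FlatClasses.gap_main hR hT hb hA ho⟩

end Pool.Agent.Results.MP_298761_ag.OneFibreLaw
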